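import Pool.Agent.H458.AU.Final
import Pool.Agent.H458.RN.Rel
import Pool.Graph.R_pool_sql_team_seeded_63374d34.N874.TF.All

/-!
# Artin twists of almost all elliptic curves after a bounded quadratic twist

Let `F` be ANY number field (for `F = ℚ` this is the setting of the problem), and `N(X)` the number of the minimal
integral equations `E : y ^ 2 = x ^ 3 + A x + B` of elliptic curves over `F` of height at most `X`; for `d ∈ 𝓞 F`,
`d ≠ 0`, the curve `y ^ 2 = x ^ 3 + A d ^ 2 x + B d ^ 3` is the quadratic twist `E ^ d`. For a Galois extension `M / F`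
and a complex representation `ρ` of `Gal(M / F)` let `m_ρ(E)` be the dimension of the space of the equivariant maps from
`ρ` to `V_E = ℂ ⊗ E(M)`, the multiplicity if `ρ` is irreducible.

For a natural number `R` and `E` let `C(E, R)` be the class of all the Galois extensions `M / F` of 2-power degree in
which the primes dividing `R` split completely, which are unramified at all the primes of `F` modulo which
`x ^ 3 + A x + B` has a zero, and in which the real places of `F` at which `4 A ^ 3 + 27 B ^ 2` is negative have a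
real place above them.

**Theorem.** Let `W ≥ 1` and let `𝒮` be a finite set of nonzero integers of `F`.

(1) For every `ε > 0` there are a FINITE set `𝒟` of squarefree natural numbers `D ≡ 1 mod 8 W`, with `1 ∈ 𝒟`, and a
multiple `R` of `2 W` and of all `D ∈ 𝒟`, such that for all large `X` ALL the curves `E` of height at most `X`, with the
exception of at most `ε N(X)`, have for every `d ∈ 𝒮` a `D ∈ 𝒟` with the following properties for ALL
`M ∈ C(E ^ d, R)` (`M = F` is one of them): `m_ρ(E ^ (d D)) = 0` for ALL the complex representations `ρ` of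
`Gal(M / F)`, even `V_(E ^ (d D)) = 0`; the group of the points over `M` is finite of odd order, the 2-Selmer group over
`M` is zero, the Tate-Shafarevich group over `M` has no element of order two; and if `Gal(M / F)` is not cyclic, then the
global root number of `E ^ (d D)` over `M`, which is the product of the `w(ρ) ^ (dim ρ)` over all the irreducible `ρ`,
is `1`.

(2) Let `ω(X)` be ANY function which tends to infinity. For 100 percent of the curves `E` (the proportion among those of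
height at most `X` tends to `1`) there are for every `d ∈ 𝒮` natural numbers `D` (squarefree, `D ≡ 1 mod 8 W`) and
`R ≤ ω(X)` (a multiple of `2 W D`) such that `E ^ (d D)` has the properties of (1) for ALL `M ∈ C(E ^ d, R)`.

So all the Artin multiplicities of the problem, for all the extensions in an infinite class at the same time, vanish, for
100 percent of the elliptic curves, after a quadratic twist by a number which tends to infinity as slowly as one likes.
The conjecture of the problem (for `E` itself, one `ρ` at a time, and with `m_ρ = 1` if `w(ρ) = -1`) predicts this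
vanishing for all `ρ` with `w(ρ) = 1` or not self-dual; here the twist makes all the `w(ρ)` equal to `1` (this is not
proved here, only for the product over the `ρ` of a group which is not cyclic).

What was known: a positive proportion of the curves for one fixed `M` at a time (library), bounds for `m_ρ(E) / dim ρ`
on average (`MP_775b3b_nt.UniformArtinMultiplicities`, helper459), 40.8 percent of the cubic characters of one Kummer
extension for almost all the `y ^ 2 + D y = x ^ 3` (`MP_775b3b_nt.AlmostAllTwistsH451`). The theorem on the Selmer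
groups over all `M` is that of `MP_7cad78_nt.FiniteSetsOfTwists`, and the root numbers are as in
`MP_02f36d_nt.AlmostAllCurves`; new here are the representations and (2) over all `M` with `R ≤ ω(X)`.

The root number is computed for all functions `w` on the primes of `M` with three properties of the local root
numbers: the values are signs; `w v = 1` if `v` does not divide `2 (4 A ^ 3 + 27 B ^ 2)`, `(A, B)` the coefficients of
the twist, (good reduction); and `w` is invariant under `Gal(M / F)` (as the curve is defined over `F`). At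
the infinite places the local root number is `-1`. The three properties determine the product.

Parts of the proof are by helpers 294, 337, 348, 350, 549, 650, 653, 665, 747, 975, 980 and 459 (project AU).
-/

set_option autoImplicit false
set_option linter.all false

open Polynomial NumberField IsDedekindDomain Filter
open scoped Classical TensorProduct

namespace Pool.Agent.Results.MP_775b3b_nt.AlmostAllArtinTwists

open Pool.Agent.N874.PP (sW)
open Pool.Agent.TH115.GD (Pt act)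
open Pool.Agent.N874.QM (SelC ShaC)

section linear

/-- The complex vector space `ℂ ⊗ A`. -/
def Cx (A : Type) [AddCommGroup A] : Type := ℂ ⊗[ℤ] A

noncomputable instance Cx.grp (A : Type) [AddCommGroup A] : AddCommGroup (Cx A) :=
  inferInstanceAs (AddCommGroup (ℂ ⊗[ℤ] A))

noncomputable instance Cx.mod (A : Type) [AddCommGroup A] : Module ℂ (Cx A) :=
  inferInstanceAs (Module ℂ (ℂ ⊗[ℤ] A))

/-- The map `id ⊗ f`. -/
noncomputable def Cx.map {A : Type} [AddCommGroup A] (f : A →+ A) : Cx A →ₗ[ℂ] Cx A :=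
  LinearMap.baseChange ℂ (AddMonoidHom.toIntLinearMap f)

/-- The space of the equivariant linear maps from the representation `ρ` to `ℂ ⊗ A`, where `G` acts on `A` by `τ`. -/
noncomputable def Maps {A G V : Type} [AddCommGroup A] [Group G] (τ : G → A →+ A)
    [AddCommGroup V] [Module ℂ V] (ρ : Representation ℂ G V) : Submodule ℂ (V →ₗ[ℂ] Cx A) where
  carrier := {φ | ∀ σ v, φ (ρ σ v) = Cx.map (τ σ) (φ v)}
  add_mem' := by
    intro φ ψ h1 h2 σ v
    rw [LinearMap.add_apply, LinearMap.add_apply, map_add, h1, h2]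
  zero_mem' := by
    intro σ v
    rw [LinearMap.zero_apply, LinearMap.zero_apply, map_zero]
  smul_mem' := by
    intro c φ h σ v
    rw [LinearMap.smul_apply, LinearMap.smul_apply, map_smul, h]

theorem cx_zero {A : Type} [AddCommGroup A] [Finite A] : Subsingleton (Cx A) := by
  have h0 : ∀ z : ℂ ⊗[ℤ] A, z = 0 := by
    intro z
    induction z using TensorProduct.induction_on with
    | zero => rfl
    | tmul c P =>
      obtain ⟨m, hm, hx⟩ := (isOfFinAddOrder_of_finite P).exists_nsmul_eq_zero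
      have hm0 : (m : ℂ) ≠ 0 := Nat.cast_ne_zero.2 hm.ne'
      have e : c = ((m : ℤ)) • (c / (m : ℂ)) := by
        rw [zsmul_eq_mul]
        push_cast
        field_simp
      rw [e, TensorProduct.smul_tmul, natCast_zsmul, hx, TensorProduct.tmul_zero]
    | add x y hx hy => rw [hx, hy, add_zero]
  exact ⟨fun x y => (h0 x).trans (h0 y).symm⟩

end linear

section defs

variable {F : Type} [Field F] [NumberField F]

variable (F) in
/-- The pairs `(A, B)` of height at most `X` such that `y ^ 2 = x ^ 3 + A x + B` is a minimal equation of an elliptic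
curve. -/
def Curves (X : ℝ) : Set (𝓞 F × 𝓞 F) :=
  {p | 4 * p.1 ^ 3 + 27 * p.2 ^ 2 ≠ 0 ∧
    (∀ 𝔭 : Ideal (𝓞 F), 𝔭.IsPrime → 𝔭 ≠ ⊥ → ¬ (p.1 ∈ 𝔭 ^ 4 ∧ p.2 ∈ 𝔭 ^ 6)) ∧
    ∀ σ : F →+* ℂ, 4 * ‖σ (p.1 : F)‖ ^ 3 ≤ X ∧ 27 * ‖σ (p.2 : F)‖ ^ 2 ≤ X}

/-- The quadratic twist by `d`. -/
def twist (p : 𝓞 F × 𝓞 F) (d : 𝓞 F) : 𝓞 F × 𝓞 F := (p.1 * d ^ 2, p.2 * d ^ 3)

/-- The curve `y ^ 2 = x ^ 3 + A x + B` over the extension `M` of `F`, `p = (A, B)`. -/
noncomputable def curve (M : Type) [Field M] [Algebra F M] (p : 𝓞 F × 𝓞 F) : WeierstrassCurve M :=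
  sW (algebraMap F M (p.1 : F)) (algebraMap F M (p.2 : F))

/-- `M / F` is unramified at `v`. -/
def Unramified (v : HeightOneSpectrum (𝓞 F)) (M : Type) [Field M] [NumberField M] [Algebra F M] : Prop :=
  ∀ w : HeightOneSpectrum (𝓞 M), v.asIdeal.map (algebraMap (𝓞 F) (𝓞 M)) ≤ w.asIdeal →
    ¬ v.asIdeal.map (algebraMap (𝓞 F) (𝓞 M)) ≤ w.asIdeal ^ 2

/-- `v` splits completely in `M`: it is unramified and all integers of `M` are congruent to integers of
`F` modulo every prime over `v`. -/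
def SplitsCompletely (v : HeightOneSpectrum (𝓞 F)) (M : Type) [Field M] [NumberField M]
    [Algebra F M] : Prop :=
  Unramified v M ∧
  ∀ w : HeightOneSpectrum (𝓞 M), v.asIdeal.map (algebraMap (𝓞 F) (𝓞 M)) ≤ w.asIdeal →
    ∀ y : 𝓞 M, ∃ c : 𝓞 F, y - algebraMap (𝓞 F) (𝓞 M) c ∈ w.asIdeal

/-- The extensions `M / F` which belong to the integer `R` and the curve `p = (A, B)`. -/
structure InClass (R : ℕ) (p : 𝓞 F × 𝓞 F) (M : Type) [Field M] [NumberField M] [Algebra F M] : Prop where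
  galois : IsGalois F M
  degree : ∃ n : ℕ, Module.finrank F M = 2 ^ n
  split : ∀ v : HeightOneSpectrum (𝓞 F), (R : 𝓞 F) ∈ v.asIdeal → SplitsCompletely v M
  unramified : ∀ v : HeightOneSpectrum (𝓞 F), (∃ t : 𝓞 F, t ^ 3 + p.1 * t + p.2 ∈ v.asIdeal) →
    Unramified v M
  real : ∀ σ : F →+* ℝ, 0 < σ ((4 * p.1 ^ 3 + 27 * p.2 ^ 2 : 𝓞 F) : F) ∨
    ∃ ρ : M →+* ℝ, ρ.comp (algebraMap F M) = σ

/-- The curve `p` has trivial 2-Selmer group, no element of order two in the Tate-Shafarevich group, and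
finitely many points over `M`, an odd number. -/
structure Trivial (M : Type) [Field M] [NumberField M] [Algebra F M] (p : 𝓞 F × 𝓞 F) : Prop where
  selmer : SelC (curve M p)
  sha : ShaC (curve M p)
  finite : Finite (Pt (curve M p) M)
  odd : Odd (Nat.card (Pt (curve M p) M))

/-- The properties of the local root numbers at the primes `v` of `M` of the curve `p = (A, B)` over `M` which we
use: they are signs, they are `1` if `v` does not divide `2` and `4 A ^ 3 + 27 B ^ 2`, and they are the same for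
primes which are conjugate over `F`. -/
structure LocalRootNumbers (p : 𝓞 F × 𝓞 F) (M : Type) [Field M] [NumberField M] [Algebra F M]
    (w : HeightOneSpectrum (𝓞 M) → ℤ) : Prop where
  sign : ∀ v, w v = 1 ∨ w v = -1
  good : ∀ v : HeightOneSpectrum (𝓞 M), (2 : 𝓞 M) ∉ v.asIdeal →
    algebraMap (𝓞 F) (𝓞 M) (4 * p.1 ^ 3 + 27 * p.2 ^ 2) ∉ v.asIdeal → w v = 1
  conj : ∀ (σ : M ≃ₐ[F] M) (v v' : HeightOneSpectrum (𝓞 M)),
    (∀ x : M, v'.valuation M x = v.valuation M (σ x)) → w v' = w v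

/-- The global root number of an elliptic curve: the product of the local root numbers at the primes and
of `-1` for every infinite place. -/
noncomputable def rootNumber (M : Type) [Field M] [NumberField M]
    (w : HeightOneSpectrum (𝓞 M) → ℤ) : ℤ :=
  (-1) ^ Nat.card (InfinitePlace M) * ∏ᶠ v, w v

/-- The parity conjecture for the curve `p` over `M`, and the finiteness of the product. -/
def Parity (M : Type) [Field M] [NumberField M] [Algebra F M] (p : 𝓞 F × 𝓞 F) : Prop :=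
  ∀ w : HeightOneSpectrum (𝓞 M) → ℤ, LocalRootNumbers p M w →
    {v | w v ≠ 1}.Finite ∧ (-1) ^ Module.finrank ℤ (Pt (curve M p) M) = rootNumber M w

/-- The action of `σ ∈ Gal(M / F)` on `E(M)`, `E` the curve `p` over `F`. -/
noncomputable def gal (p : 𝓞 F × 𝓞 F) (M : Type) [Field M] [Algebra F M] (σ : M ≃ₐ[F] M) :
    Pt (sW (p.1 : F) (p.2 : F)) M →+ Pt (sW (p.1 : F) (p.2 : F)) M :=
  act (sW (p.1 : F) (p.2 : F)) (σ : M →ₐ[F] M)

/-- The complex vector space `V_E = ℂ ⊗ E(M)`, `E` the curve `p` over `F`. -/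
def VE (p : 𝓞 F × 𝓞 F) (M : Type) [Field M] [Algebra F M] : Type :=
  Cx (Pt (sW (p.1 : F) (p.2 : F)) M)

/-- `m_ρ(E)`: the dimension of the space of the equivariant linear maps from `ρ` to `V_E`. -/
noncomputable def mult (p : 𝓞 F × 𝓞 F) {M : Type} [Field M] [Algebra F M] {V : Type} [AddCommGroup V]
    [Module ℂ V] (ρ : Representation ℂ (M ≃ₐ[F] M) V) : ℕ :=
  Module.finrank ℂ (Maps (gal p M) ρ)

/-- The properties over all the fields in the class of the curve `p₀` of the curve `p`. -/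
structure Good (R : ℕ) (p₀ p : 𝓞 F × 𝓞 F) : Prop where
  artin : ∀ (M : Type) [Field M] [NumberField M] [Algebra F M], InClass R p₀ M →
    Subsingleton (VE p M) ∧ ∀ (V : Type) [AddCommGroup V] [Module ℂ V]
      (ρ : Representation ℂ (M ≃ₐ[F] M) V), mult p ρ = 0
  trivial : ∀ (M : Type) [Field M] [NumberField M] [Algebra F M], InClass R p₀ M → Trivial M p
  root : ∀ (M : Type) [Field M] [NumberField M] [Algebra F M], InClass R p₀ M →
    ¬ IsCyclic (M ≃ₐ[F] M) → ∀ w : HeightOneSpectrum (𝓞 M) → ℤ, LocalRootNumbers p M w →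
    {v | w v ≠ 1}.Finite ∧ rootNumber M w = 1

end defs

section pf

open Pool.Agent.H459.UF (Unr Deg1 GoodM)
open Pool.Agent.H458.AU (ClsM Tw twp)
open Pool.Agent.H458.RN

variable {F : Type} [Field F] [NumberField F]

theorem unr_of {M : Type} [Field M] [NumberField M] [Algebra F M] {v : HeightOneSpectrum (𝓞 F)}
    (h : Unramified v M) : Unr F M v := fun P hP =>
  h P (hP.trans (Ideal.pow_le_self two_ne_zero)) hP

theorem of_unr {M : Type} [Field M] [NumberField M] [Algebra F M] {v : HeightOneSpectrum (𝓞 F)}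
    (h : Unr F M v) : Unramified v M := fun P _ hP => h P hP

/-- A cubic without zeros over a finite field has discriminant different from zero. -/
theorem zero_of_disc {k : Type} [Field k] [Finite k] {a b : k} (h : 4 * a ^ 3 + 27 * b ^ 2 = 0) :
    ∃ t : k, t ^ 3 + a * t + b = 0 := by
  by_cases ha : a = 0
  · subst ha
    by_cases h3 : (3 : k) = 0
    · haveI : CharP k 3 := by
        obtain ⟨p, hp⟩ := CharP.exists k
        have h4 : p ∣ 3 := (CharP.cast_eq_zero_iff k p 3).1 (by exact_mod_cast h3)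
        rcases (Nat.dvd_prime Nat.prime_three).1 h4 with h5 | h5
        · subst h5
          exact absurd rfl (CharP.char_ne_one k 1)
        · subst h5
          exact hp
      haveI : Fact (Nat.Prime 3) := ⟨Nat.prime_three⟩
      obtain ⟨t, ht⟩ := (Finite.injective_iff_surjective.1 (frobenius_inj k 3)) (-b)
      refine ⟨t, ?_⟩
      rw [frobenius_def] at ht
      rw [ht]
      ring
    · have hb : b = 0 := by
        have h4 : (27 : k) ≠ 0 := by
          have : (27 : k) = 3 ^ 3 := by norm_num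
          rw [this]
          exact pow_ne_zero _ h3
        have h5 : (27 : k) * b ^ 2 = 0 := by linear_combination h
        rcases mul_eq_zero.1 h5 with h6 | h6
        · exact absurd h6 h4
        · exact pow_eq_zero_iff (two_ne_zero) |>.1 h6
      exact ⟨0, by rw [hb]; ring⟩
  · refine ⟨3 * b / a, ?_⟩
    field_simp
    linear_combination b * h

theorem parity_of {R : ℕ} (h2R : 2 ∣ R) {p : 𝓞 F × 𝓞 F} {D : ℕ} (hDR : D ∣ R) (hD0 : D ≠ 0)
    (hdis : 4 * p.1 ^ 3 + 27 * p.2 ^ 2 ≠ 0)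
    (M : Type) [Field M] [NumberField M] [Algebra F M] (hM : InClass R p M)
    (hT : Trivial M (twist p (D : 𝓞 F)))
    (hnc : ¬ IsCyclic (M ≃ₐ[F] M)) : Parity M (twist p (D : 𝓞 F)) := by
  intro w hw
  haveI := hM.galois
  obtain ⟨n, hn⟩ := hM.degree
  haveI : FiniteDimensional F M := Module.finite_of_finrank_pos (by rw [hn]; positivity)
  have hcardG : Nat.card (M ≃ₐ[F] M) = 2 ^ n := by
    rw [IsGalois.card_aut_eq_finrank, hn]
  have hn2 : 2 ≤ n := by
    by_contra hlt
    apply hnc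
    haveI : Fact (Nat.Prime 2) := ⟨Nat.prime_two⟩
    obtain rfl | rfl : n = 0 ∨ n = 1 := by omega
    · rw [pow_zero, Nat.card_eq_one_iff_unique] at hcardG
      haveI := hcardG.1
      exact isCyclic_of_subsingleton
    · rw [pow_one] at hcardG
      exact isCyclic_of_prime_card hcardG
  have hdd : 4 * (twist p (D : 𝓞 F)).1 ^ 3 + 27 * (twist p (D : 𝓞 F)).2 ^ 2 =
      (D : 𝓞 F) ^ 6 * (4 * p.1 ^ 3 + 27 * p.2 ^ 2) := by
    unfold twist
    ring
  have hd' : algebraMap (𝓞 F) (𝓞 M) (4 * (twist p (D : 𝓞 F)).1 ^ 3 +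
      27 * (twist p (D : 𝓞 F)).2 ^ 2) ≠ 0 := by
    intro h
    rw [hdd] at h
    have h1 := NumberField.RingOfIntegers.algebraMap.injective F M (h.trans (map_zero _).symm)
    exact mul_ne_zero (pow_ne_zero 6 (Nat.cast_ne_zero.2 hD0)) hdis h1
  have hfin : {v | w v ≠ 1}.Finite := by
    have h1 : {v : HeightOneSpectrum (𝓞 M) | 2 * algebraMap (𝓞 F) (𝓞 M)
        (4 * (twist p (D : 𝓞 F)).1 ^ 3 + 27 * (twist p (D : 𝓞 F)).2 ^ 2) ∈ v.asIdeal}.Finite := by
      have h2 : Ideal.span {2 * algebraMap (𝓞 F) (𝓞 M)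
          (4 * (twist p (D : 𝓞 F)).1 ^ 3 + 27 * (twist p (D : 𝓞 F)).2 ^ 2)} ≠ ⊥ := by
        rw [Ne, Ideal.span_singleton_eq_bot]
        exact mul_ne_zero two_ne_zero hd'
      refine (Ideal.finite_factors h2).subset ?_
      intro v hv
      rw [Set.mem_setOf_eq, Ideal.dvd_span_singleton]
      exact hv
    refine h1.subset ?_
    intro v hv
    by_contra hcon
    apply hv
    have h3 : ¬ ((2 : 𝓞 M) * algebraMap (𝓞 F) (𝓞 M)
        (4 * (twist p (D : 𝓞 F)).1 ^ 3 + 27 * (twist p (D : 𝓞 F)).2 ^ 2) ∈ v.asIdeal) := hcon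
    rw [v.isPrime.mul_mem_iff_mem_or_mem, not_or] at h3
    exact hw.good v h3.1 h3.2
  refine ⟨hfin, ?_⟩
  have hprod := prod_eq F hn w hw.sign hfin hw.conj
  have hempty : {v | w v = -1 ∧ Fixed F v} = ∅ := by
    rw [Set.eq_empty_iff_forall_notMem]
    rintro v ⟨hv1, hv2⟩
    obtain ⟨u, hu⟩ := Pool.Agent.N874.TF.exists_bel F v
    haveI hl : v.asIdeal.LiesOver u.asIdeal := ⟨by
      ext y
      rw [Ideal.mem_comap]
      exact hu y⟩
    have hle : u.asIdeal.map (algebraMap (𝓞 F) (𝓞 M)) ≤ v.asIdeal := by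
      rw [Ideal.map_le_iff_le_comap]
      intro y hy
      exact (hu y).1 hy
    -- an unramified prime
    have hunr : ∀ h : Unramified u M, False := by
      intro h
      apply hnc
      refine cyclic_of_fixed (u := u) (v := v) ?_ hv2
      exact Ideal.ramificationIdx'_spec (by rw [pow_one]; exact hle) (h v hle)
    by_cases hR : (R : 𝓞 F) ∈ u.asIdeal
    · exact hunr (hM.split u hR).1
    have hD : (D : 𝓞 F) ∉ u.asIdeal := by
      intro h3
      apply hR
      obtain ⟨m, hm'⟩ := hDR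
      rw [hm', Nat.cast_mul]
      exact Ideal.mul_mem_right _ _ h3
    have h3 : (2 : 𝓞 M) ∉ v.asIdeal := by
      intro h4
      apply hR
      obtain ⟨m, hm'⟩ := h2R
      rw [hm', Nat.cast_mul]
      refine Ideal.mul_mem_right _ _ ?_
      rw [hu, Nat.cast_ofNat, map_ofNat]
      exact h4
    have hnz : ¬ ∃ t : 𝓞 F, t ^ 3 + p.1 * t + p.2 ∈ u.asIdeal := fun h => hunr (hM.unramified u h)
    have hdu : 4 * p.1 ^ 3 + 27 * p.2 ^ 2 ∉ u.asIdeal := by
      intro h4
      apply hnz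
      haveI : u.asIdeal.IsMaximal := u.isMaximal
      letI : Field (𝓞 F ⧸ u.asIdeal) := Ideal.Quotient.field u.asIdeal
      haveI : Finite (𝓞 F ⧸ u.asIdeal) := inferInstance
      obtain ⟨t, ht⟩ := zero_of_disc (k := 𝓞 F ⧸ u.asIdeal) (a := Ideal.Quotient.mk u.asIdeal p.1)
        (b := Ideal.Quotient.mk u.asIdeal p.2) (by
          have h5 := Ideal.Quotient.eq_zero_iff_mem.2 h4
          simpa only [map_add, map_mul, map_pow, map_ofNat] using h5)
      obtain ⟨t, rfl⟩ := Ideal.Quotient.mk_surjective t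
      refine ⟨t, Ideal.Quotient.eq_zero_iff_mem.1 ?_⟩
      simpa only [map_add, map_mul, map_pow] using ht
    have h5 : algebraMap (𝓞 F) (𝓞 M) (4 * (twist p (D : 𝓞 F)).1 ^ 3 +
        27 * (twist p (D : 𝓞 F)).2 ^ 2) ∉ v.asIdeal := by
      intro h6
      rw [← hu, hdd] at h6
      rcases u.isPrime.mem_or_mem h6 with h7 | h7
      · exact hD (u.isPrime.mem_of_pow_mem _ h7)
      · exact hdu h7
    rw [hw.good v h3 h5] at hv1
    norm_num at hv1
  have hr : Module.finrank ℤ (Pt (curve M (twist p (D : 𝓞 F))) M) = 0 := by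
    haveI := hT.finite
    refine Module.finrank_eq_zero_of_rank_eq_zero ?_
    rw [rank_eq_zero_iff]
    intro x
    obtain ⟨m, hm, hx⟩ := (isOfFinAddOrder_of_finite x).exists_nsmul_eq_zero
    refine ⟨(m : ℤ), by exact_mod_cast hm.ne', ?_⟩
    rw [natCast_zsmul]
    exact hx
  rw [hr, pow_zero, rootNumber, hprod, hempty, Set.ncard_empty, pow_zero, mul_one]
  exact ((even_infinite (F := F) hn hn2).neg_one_pow).symm

theorem fin_pt (p : 𝓞 F × 𝓞 F) (M : Type) [Field M] [NumberField M] [Algebra F M]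
    (h : Finite (Pt (curve M p) M)) : Finite (Pt (sW (p.1 : F) (p.2 : F)) M) := by
  have e : (curve M p).baseChange M = (sW (p.1 : F) (p.2 : F)).baseChange M := by
    ext
    all_goals simp [curve, sW, WeierstrassCurve.baseChange]
  have h' : Finite ((curve M p).baseChange M).toAffine.Point := h
  rw [e] at h'
  exact h'

theorem artin_of (p : 𝓞 F × 𝓞 F) (M : Type) [Field M] [NumberField M] [Algebra F M]
    (h : Finite (Pt (curve M p) M)) : Subsingleton (VE p M) ∧ ∀ (V : Type) [AddCommGroup V] [Module ℂ V]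
      (ρ : Representation ℂ (M ≃ₐ[F] M) V), mult p ρ = 0 := by
  haveI := fin_pt p M h
  have hs : Subsingleton (Cx (Pt (sW (p.1 : F) (p.2 : F)) M)) := cx_zero
  refine ⟨hs, fun V _ _ ρ => ?_⟩
  have h1 : Subsingleton (V →ₗ[ℂ] Cx (Pt (sW (p.1 : F) (p.2 : F)) M)) :=
    ⟨fun φ ψ => LinearMap.ext fun v => Subsingleton.elim _ _⟩
  unfold mult
  haveI : Subsingleton (Maps (gal p M) ρ) := ⟨fun a b => Subtype.ext (Subsingleton.elim _ _)⟩
  exact Module.finrank_zero_of_subsingleton

theorem good_of {R : ℕ} {𝒟 : Finset ℕ} (h2R : 2 ∣ R) (hD' : ∀ D ∈ 𝒟, Squarefree D ∧ D ∣ R)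
    {p : 𝓞 F × 𝓞 F} (hdis : 4 * p.1 ^ 3 + 27 * p.2 ^ 2 ≠ 0) {d : 𝓞 F} (hd : d ≠ 0)
    (h : Tw R 𝒟 (twp p d)) :
    ∃ D ∈ 𝒟, Good R (twist p d) (twist (twist p d) (D : 𝓞 F)) := by
  obtain ⟨D, hD, h⟩ := h
  have hT : ∀ (M : Type) [Field M] [NumberField M] [Algebra F M], InClass R (twist p d) M →
      Trivial M (twist (twist p d) (D : 𝓞 F)) := by
    intro M _ _ _ hM
    haveI := hM.galois
    obtain ⟨n, hn⟩ := hM.degree
    obtain ⟨h1, h2, h3, h4⟩ := h M n hn ⟨fun v hv => ⟨unr_of (hM.split v hv).1, (hM.split v hv).2⟩,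
      fun v hv => unr_of (hM.unramified v hv), hM.real⟩
    exact ⟨h1, h2, h3, h4⟩
  have hdis' : 4 * (twist p d).1 ^ 3 + 27 * (twist p d).2 ^ 2 ≠ 0 := by
    have e : 4 * (twist p d).1 ^ 3 + 27 * (twist p d).2 ^ 2 = d ^ 6 * (4 * p.1 ^ 3 + 27 * p.2 ^ 2) := by
      unfold twist
      ring
    rw [e]
    exact mul_ne_zero (pow_ne_zero _ hd) hdis
  refine ⟨D, hD, fun M _ _ _ hM => artin_of _ M (hT M hM).finite, fun M _ _ _ hM => hT M hM,
    fun M _ _ _ hM hnc w hw => ?_⟩
  obtain ⟨h5, h6⟩ := parity_of h2R (hD' D hD).2 (hD' D hD).1.ne_zero hdis' M hM (hT M hM) hnc w hw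
  refine ⟨h5, ?_⟩
  haveI := (hT M hM).finite
  have hr : Module.finrank ℤ (Pt (curve M (twist (twist p d) (D : 𝓞 F))) M) = 0 := by
    refine Module.finrank_eq_zero_of_rank_eq_zero ?_
    rw [rank_eq_zero_iff]
    intro x
    obtain ⟨m, hm, hx⟩ := (isOfFinAddOrder_of_finite x).exists_nsmul_eq_zero
    refine ⟨(m : ℤ), by exact_mod_cast hm.ne', ?_⟩
    rw [natCast_zsmul]
    exact hx
  rw [hr, pow_zero] at h6
  exact h6.symm

end pf

theorem part1 (F : Type) [Field F] [NumberField F] (W : ℕ) (hW : 0 < W) (𝒮 : Finset (𝓞 F))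
    (h𝒮 : ∀ d ∈ 𝒮, d ≠ 0) (ε : ℝ) (hε : 0 < ε) :
    (∀ X : ℝ, (Curves F X).Finite) ∧
    ∃ (R : ℕ) (𝒟 : Finset ℕ), 0 < R ∧ 2 * W ∣ R ∧ 1 ∈ 𝒟 ∧
      (∀ D ∈ 𝒟, Squarefree D ∧ D ≡ 1 [MOD 8 * W] ∧ D ∣ R) ∧
      (∀ p : 𝓞 F × 𝓞 F, InClass R p F) ∧
      ∀ᶠ X : ℝ in atTop, 0 < (Curves F X).ncard ∧
        (({p ∈ Curves F X | ¬ ∀ d ∈ 𝒮, ∃ D ∈ 𝒟, Good R (twist p d)
          (twist (twist p d) (D : 𝓞 F))}.ncard : ℝ) ≤ ε * ((Curves F X).ncard : ℝ)) := by
  have heq : ∀ X, Curves F X = {p : 𝓞 F × 𝓞 F | Pool.Agent.N783.PF.Crv X p} := by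
    intro X
    ext p
    exact ⟨fun h => ⟨h.1, h.2.1, h.2.2⟩, fun h => ⟨h.disc, h.min, h.ht⟩⟩
  have hfin : ∀ X : ℝ, (Curves F X).Finite := by
    intro X
    rw [heq]
    exact Pool.Agent.N61.PF.crv_finite Pool.Agent.N490.PF.pts X
  obtain ⟨R, 𝒟, hR, hWR, h1, hD, Y₀, hY⟩ := Pool.Agent.H458.AU.final F (2 * W) (by omega) 𝒮 h𝒮 ε hε
  have h2R : 2 ∣ R := dvd_of_mul_right_dvd hWR
  refine ⟨hfin, R, 𝒟, hR, hWR, h1, fun D hD' => ⟨(hD D hD').1, ?_, (hD D hD').2.2⟩, fun p => ?_, ?_⟩
  · have h2 : D ≡ 1 [MOD 8 * (2 * W)] := (hD D hD').2.1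
    exact h2.of_dvd (Nat.mul_dvd_mul_left 8 (Nat.dvd_mul_left W 2))
  · have h2 := Pool.Agent.H458.AU.cls_self R p
    exact ⟨inferInstance, ⟨0, by rw [Module.finrank_self, pow_zero]⟩, fun v hv =>
      ⟨of_unr (h2.spl v hv).1, (h2.spl v hv).2⟩, fun v hv => of_unr (h2.unr v hv), h2.real⟩
  filter_upwards [eventually_ge_atTop Y₀] with X hX
  obtain ⟨h2, h3, -⟩ := hY X hX
  rw [← heq] at h2 h3
  refine ⟨h2, le_trans ?_ h3⟩
  have hsub : {p ∈ Curves F X | ¬ ∀ d ∈ 𝒮, ∃ D ∈ 𝒟, Good R (twist p d)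
      (twist (twist p d) (D : 𝓞 F))} ⊆
      {p : 𝓞 F × 𝓞 F | Pool.Agent.N783.PF.Crv X p ∧
        ∃ d ∈ 𝒮, ¬ Pool.Agent.H458.AU.Tw R 𝒟 (Pool.Agent.H458.AU.twp p d)} := by
    rintro p ⟨hp, h⟩
    rw [heq] at hp
    refine ⟨hp, ?_⟩
    by_contra hcon
    push Not at hcon
    exact h fun d hd => good_of h2R (fun D hD' => ⟨(hD D hD').1, (hD D hD').2.2⟩) hp.disc (h𝒮 d hd)
      (hcon d hd)
  have := Set.ncard_le_ncard hsub ((hfin X).subset fun p hp => by
    rw [heq]
    exact hp.1)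
  exact_mod_cast this

/-- **Artin twists of almost all elliptic curves after a bounded quadratic twist.** (1) For every
`ε > 0` there are a finite set `𝒟` of squarefree numbers and a number `R` such that for all but
a proportion `ε` of the curves `p` and all `d ∈ 𝒮` one of the twists of `p ^ d` by the numbers `D ∈ 𝒟`
has, over ALL the extensions `M / F` in the class of `p ^ d` and `R`, `m_ρ = 0` for all the complex representations `ρ`
of `Gal(M / F)`, a trivial 2-Selmer group, no element of order two in the Tate-Shafarevich group, finitely many points,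
an odd number, and root number `1` if `Gal(M / F)` is not cyclic. (2) For every `ω` which tends to infinity there are
for 100 percent of the curves `p` and all `d ∈ 𝒮` a squarefree `D ≡ 1 mod 8 W` and a multiple `R ≤ ω(X)` of `2 W D` such
that the twist of `p ^ d` by `D` has these properties over ALL the `M / F` in the class of `p ^ d` and `R`. -/
theorem result (F : Type) [Field F] [NumberField F] (W : ℕ) (hW : 0 < W) (𝒮 : Finset (𝓞 F))
    (h𝒮 : ∀ d ∈ 𝒮, d ≠ 0) :
    (∀ X : ℝ, (Curves F X).Finite) ∧ (∀ (R : ℕ) (p : 𝓞 F × 𝓞 F), InClass R p F) ∧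
    -- one finite set of twists for all but `ε` of all the curves
    (∀ ε : ℝ, 0 < ε → ∃ (R : ℕ) (𝒟 : Finset ℕ), 0 < R ∧ 2 * W ∣ R ∧ 1 ∈ 𝒟 ∧
      (∀ D ∈ 𝒟, Squarefree D ∧ D ≡ 1 [MOD 8 * W] ∧ D ∣ R) ∧
      ∀ᶠ X : ℝ in atTop, 0 < (Curves F X).ncard ∧
        (({p ∈ Curves F X | ¬ ∀ d ∈ 𝒮, ∃ D ∈ 𝒟, Good R (twist p d)
          (twist (twist p d) (D : 𝓞 F))}.ncard : ℝ) ≤ ε * ((Curves F X).ncard : ℝ))) ∧
    -- 100 percent of the curves, with `D` and `R` below any function which tends to infinity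
    ∀ ω : ℝ → ℝ, Tendsto ω atTop atTop →
      Tendsto (fun X : ℝ => ({p ∈ Curves F X | ∀ d ∈ 𝒮, ∃ D R : ℕ, Squarefree D ∧ D ≡ 1 [MOD 8 * W] ∧
        0 < R ∧ 2 * W ∣ R ∧ D ∣ R ∧ (R : ℝ) ≤ ω X ∧
        Good R (twist p d) (twist (twist p d) (D : 𝓞 F))}.ncard : ℝ) / ((Curves F X).ncard : ℝ))
        atTop (nhds 1) := by
  have hfin : ∀ X : ℝ, (Curves F X).Finite := (part1 F W hW 𝒮 h𝒮 1 one_pos).1
  refine ⟨hfin, fun R p => ?_, fun ε hε => ?_, fun ω hω => ?_⟩
  · have h2 := Pool.Agent.H458.AU.cls_self R p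
    exact ⟨inferInstance, ⟨0, by rw [Module.finrank_self, pow_zero]⟩, fun v hv =>
      ⟨of_unr (h2.spl v hv).1, (h2.spl v hv).2⟩, fun v hv => of_unr (h2.unr v hv), h2.real⟩
  · obtain ⟨-, R, 𝒟, hR, hWR, h1, hD, -, hX⟩ := part1 F W hW 𝒮 h𝒮 ε hε
    exact ⟨R, 𝒟, hR, hWR, h1, hD, hX⟩
  rw [Metric.tendsto_atTop]
  intro ε hε
  obtain ⟨-, R, 𝒟, hR, hWR, h1, hD, -, hX⟩ := part1 F W hW 𝒮 h𝒮 (ε / 2) (half_pos hε)
  obtain ⟨X₀, hX₀⟩ := eventually_atTop.1 (hX.and (hω.eventually_ge_atTop (R : ℝ)))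
  refine ⟨X₀, fun X hXX => ?_⟩
  obtain ⟨⟨hpos, hbad⟩, hωX⟩ := hX₀ X hXX
  obtain ⟨G, hG⟩ : ∃ G : Set (𝓞 F × 𝓞 F), G = {p ∈ Curves F X | ∀ d ∈ 𝒮, ∃ D R : ℕ, Squarefree D ∧
    D ≡ 1 [MOD 8 * W] ∧ 0 < R ∧ 2 * W ∣ R ∧ D ∣ R ∧ (R : ℝ) ≤ ω X ∧
    Good R (twist p d) (twist (twist p d) (D : 𝓞 F))} := ⟨_, rfl⟩
  obtain ⟨B, hB⟩ : ∃ B : Set (𝓞 F × 𝓞 F), B = {p ∈ Curves F X | ¬ ∀ d ∈ 𝒮, ∃ D ∈ 𝒟,
    Good R (twist p d) (twist (twist p d) (D : 𝓞 F))} := ⟨_, rfl⟩
  rw [← hG]
  rw [← hB] at hbad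
  have hsub : Curves F X ⊆ G ∪ B := by
    intro p hp
    by_cases h : ∀ d ∈ 𝒮, ∃ D ∈ 𝒟, Good R (twist p d) (twist (twist p d) (D : 𝓞 F))
    · left
      rw [hG]
      refine ⟨hp, fun d hd => ?_⟩
      obtain ⟨D, hD1, h2⟩ := h d hd
      exact ⟨D, R, (hD D hD1).1, (hD D hD1).2.1, hR, hWR, (hD D hD1).2.2, hωX, h2⟩
    · right
      rw [hB]
      exact ⟨hp, h⟩
  have hGf : G.Finite := (hfin X).subset (by rw [hG]; exact fun p hp => hp.1)
  have hBf : B.Finite := (hfin X).subset (by rw [hB]; exact fun p hp => hp.1)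
  have c1 := Set.ncard_le_ncard hsub (hGf.union hBf)
  have c2 := Set.ncard_union_le G B
  have c3 := Set.ncard_le_ncard (show G ⊆ Curves F X by rw [hG]; exact fun p hp => hp.1) (hfin X)
  obtain ⟨N, hN⟩ : ∃ N : ℝ, N = ((Curves F X).ncard : ℝ) := ⟨_, rfl⟩
  have hN0 : 0 < N := by rw [hN]; exact_mod_cast hpos
  have c4 : N ≤ G.ncard + B.ncard := by rw [hN]; exact_mod_cast c1.trans c2
  have c5 : (G.ncard : ℝ) ≤ N := by rw [hN]; exact_mod_cast c3
  rw [← hN] at hbad ⊢
  rw [Real.dist_eq, abs_sub_lt_iff]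
  constructor
  · have : (G.ncard : ℝ) / N ≤ 1 := (div_le_one hN0).2 c5
    linarith
  · have : 1 - ε / 2 ≤ (G.ncard : ℝ) / N := by
      rw [le_div_iff₀ hN0]
      linarith
    linarith

end Pool.Agent.Results.MP_775b3b_nt.AlmostAllArtinTwists
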