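import Mathlib
import Pool.Agent.H451.KG.Def
import Pool.Agent.H451.KG.MC
import Pool.Agent.H451.KG.MULT

/-!
# Almost all curves, a given Galois extension: most characters do not occur

The definitions are in `Pool.Agent.H451.KG.Def` and `Pool.Agent.H451.KF.Def` (and `Pool.Agent.H451.BB.Def`,
`Pool.Agent.H451.BB.Def3`).
-/

set_option autoImplicit false

namespace Pool.Agent.Results.MP_775b3b_nt.AlmostAllTwistsH451

open NumberField Pool.Agent.H451.CubT Pool.Agent.H451.KF Pool.Agent.H451.KG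

/-- The `D` considered for given `β_1, …, β_r`: `D` is squarefree, `1` modulo `3`, of norm not `1`
modulo `9` (`Cls`), and prime to all `β_i`. -/
def Admissible {K : Type} [Field K] [NumberField K] {r : ℕ} (β : Fin r → 𝓞 K) (D : 𝓞 K) : Prop :=
  Cls D ∧ ∀ i, IsCoprime D (β i)

/-- The `β_i` are independent modulo cubes. -/
def Independent {K : Type} [Field K] [NumberField K] {r : ℕ} (β : Fin r → 𝓞 K) : Prop :=
  ∀ l : Fin r → ZMod 3, (∃ c : K, ∏ i, (β i : K) ^ (l i).val = c ^ 3) → l = 0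

/-- For `F = K(∛β_1, …, ∛β_r)`: `[F : K] = 3 ^ r`, and for at least `t` of the characters `χ` of the Galois
group of `F / K`: `χ` does not occur in `ℂ ⊗ E_D(F)`, and `L(E_D / K, χ, s)` is entire and does not vanish at
`s = 1` (`CharZ`). -/
def AtLeast {K : Type} [Field K] [NumberField K] {r : ℕ} (β : Fin r → 𝓞 K) (t : ℝ) (D : 𝓞 K) :
    Prop :=
  ∀ (F : Type) [Field F] [NumberField F] [Algebra K F], IsKummer β F →
    Module.finrank K F = 3 ^ r ∧ ∀ [Fintype (F ≃ₐ[K] F)],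
      t ≤ (Nat.card {χ : (F ≃ₐ[K] F) →* ℂˣ // CharZ D β F χ} : ℝ)

/-- **Almost all curves, most characters.** `K = ℚ(√-3)`, `F = K(∛β_1, …, ∛β_r)` a given extension of degree
`3 ^ r`, the `β_i` being `1` modulo `3` and of norm `1` modulo `9`. For all `δ > 0` and all large `X`, for all but
a proportion of at most `5 / (δ² 3 ^ r)` of the admissible `D` of norm at most `X` (a positive proportion of all
integers of `K`), at least `(0.408 - δ) 3 ^ r` of the `3 ^ r` characters `χ` of the Galois group have multiplicity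
zero in `E_D(F)` and `L(E_D / K, χ, 1) ≠ 0`. -/
theorem result (K : Type) [Field K] [NumberField K] [IsCyclotomicExtension {3} ℚ K] (r : ℕ)
    (β : Fin r → 𝓞 K) (hβ : ∀ i, (3 : 𝓞 K) ∣ β i - 1)
    (h9 : ∀ i, (9 : ℤ) ∣ Algebra.norm ℤ (β i) - 1) (hind : Independent β) (δ : ℝ) (hδ : 0 < δ) :
    (∃ c : ℝ, 0 < c ∧ ∃ X₀ : ℕ, ∀ X : ℕ, X₀ ≤ X →
      c * X ≤ ({D : 𝓞 K | Algebra.norm ℤ D ≤ X ∧ Admissible β D}.ncard : ℝ)) ∧
    ∃ X₀ : ℕ, ∀ X : ℕ, X₀ ≤ X →
      ({D : 𝓞 K | Algebra.norm ℤ D ≤ X ∧ Admissible β D ∧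
        ¬ AtLeast β ((0.408 - δ) * 3 ^ r) D}.ncard : ℝ) ≤
      5 / (δ ^ 2 * 3 ^ r) * ({D : 𝓞 K | Algebra.norm ℤ D ≤ X ∧ Admissible β D}.ncard : ℝ) :=
  finalM t_MULT K r β hβ h9 hind δ hδ

end Pool.Agent.Results.MP_775b3b_nt.AlmostAllTwistsH451
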