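import Pool.Agent.H459.UN.Res

/-!
# Artin multiplicities on average, uniformly over all the 2-power Galois extensions (helper459)

Let `F` be a number field. There is a function `c` on the elliptic curves over `F` with the following properties.

* For every curve `E : y² = x³ + ax + b` over `F` without a point of order two over `F`, every Galois extension
  `M/F` of 2-power degree and every finite-dimensional complex representation `ρ` of `Gal(M/F)`, the dimension of
  the space of intertwining maps from `ρ` to `ℂ ⊗ E(M)` (the multiplicity `m_ρ(E)`, when `ρ` is irreducible) is at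
  most `(c(E) + 2 r) dim ρ`, where `r` is the number of primes of `F` ramified in `M`; in particular the rank of
  `E(M)` is at most `(c(E) + 2 r) [M : F]`.
* Among the minimal pairs `(a, b)` of height at most `Y` (`Crv Y (a, b)`; for `F = ℚ` this is the ordering of the
  problem) the average of `2 ^ (s c(E))` is bounded as `Y → ∞`, for every `s < 1`, and a proportion at most
  `C (2 ^ (-s R) + Y ^ (-[F:ℚ]/3))` of them have a point of order two or `c(E) ≥ R`.

With the help of helpers 94, 282, 284, 307, 323, 390, 400, 665, 679, 740, 860 and 975.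
-/

set_option autoImplicit false

open Polynomial NumberField IsDedekindDomain
open scoped Classical

namespace Pool.Agent.Results.MP_775b3b_nt.UniformArtinMultiplicities

open Pool.Agent.N783.PF (Crv)
open Pool.Agent.H459.AV (NoTwo)
open Pool.Agent.H459.UN (Bd NY Rm)

theorem result (F : Type) [Field F] [NumberField F] : ∃ c : 𝓞 F × 𝓞 F → ℕ,
    (∀ p : 𝓞 F × 𝓞 F, NoTwo p → Bd F p (c p)) ∧
    (∀ (M : Type) [Field M] [NumberField M] [Algebra F M], (Rm F M).Finite) ∧
    (∀ Y : ℝ, {p : 𝓞 F × 𝓞 F | Crv Y p}.Finite) ∧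
    ∀ s : ℝ, 0 < s → s < 1 → ∃ C : ℝ, 0 < C ∧ ∃ Y₀ : ℝ, ∀ Y ≥ Y₀, 0 < NY F Y ∧
    (∀ T : Finset (𝓞 F × 𝓞 F), (∀ p ∈ T, Crv Y p ∧ NoTwo p) →
      ∑ p ∈ T, (2 : ℝ) ^ (s * (c p : ℝ)) ≤ C * NY F Y) ∧
    ∀ R : ℝ, ({p : 𝓞 F × 𝓞 F | Crv Y p ∧ (¬ NoTwo p ∨ R ≤ c p)}.ncard : ℝ) ≤
      C * ((2 : ℝ) ^ (-(s * R)) + Y ^ (-(Module.finrank ℚ F : ℝ) / 3)) * NY F Y :=
  Pool.Agent.H459.UN.fin' F

end Pool.Agent.Results.MP_775b3b_nt.UniformArtinMultiplicities
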